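import Pool.Agent.Helper80.Hist.Defs

/-!
MP_097372_co, block B1 (helper14): the grow step.
-/

namespace Pool.Agent.Helper80.Hist

open Finset

lemma card_nbr_le {A : Finset ℕ} {G : SimpleGraph ℕ} (hC : Core A G) {x : ℕ} (hx : x ∈ A)
    (Y : Finset ℕ) (hY : ∀ y ∈ Y, G.Adj x y) : Y.card ≤ 3 := by
  have h1 : (Y.card : ℤ) = ∑ y ∈ Y, aa G x y := by
    rw [Finset.sum_congr rfl (fun y hy => show aa G x y = 1 by rw [aa, if_pos (hY y hy)])]
    simp
  have h2 : ∑ y ∈ Y, aa G x y ≤ ∑ y ∈ A, aa G x y :=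
    Finset.sum_le_sum_of_subset_of_nonneg (fun y hy => hC.supp _ _ (hY y hy).symm)
      (fun y _ _ => aa_nonneg G x y)
  rw [hC.cubic x hx] at h2
  omega

lemma card_nbr_le_two {A : Finset ℕ} {G : SimpleGraph ℕ} (hC : Core A G) {x y₀ : ℕ} (hx : x ∈ A)
    (hy₀ : G.Adj x y₀) (Y : Finset ℕ) (hY : ∀ y ∈ Y, G.Adj x y ∧ y ≠ y₀) : Y.card ≤ 2 := by
  have h1 := card_nbr_le hC hx (insert y₀ Y) (by
    intro y hy
    rcases Finset.mem_insert.1 hy with rfl | hy
    · exact hy₀
    · exact (hY y hy).1)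
  rw [Finset.card_insert_of_notMem (fun h => (hY y₀ h).2 rfl)] at h1
  omega

/-- every vertex has a tree neighbour -/
lemma exists_tree_nbr (t : LT ℕ) {x : ℕ} (hx : x ∈ (0 :: t.labels).toFinset) : ∃ y, TA t x y := by
  rw [List.mem_toFinset, List.mem_cons] at hx
  rcases hx with rfl | hx
  · refine ⟨t.lab, Or.inl ?_⟩
    rw [LT.tedges_eq]; simp
  · obtain ⟨y, hy⟩ := LT.exists_parent 0 t hx
    exact ⟨y, Or.inr hy⟩

lemma TA.adj {t : LT ℕ} {G P : SimpleGraph ℕ} (h : GoodW t G P) {x y : ℕ} (hxy : TA t x y) :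
    G.Adj x y := by
  rcases hxy with h1 | h1
  · exact h.tg _ h1
  · exact (h.tg _ h1).symm

open Classical in
/-- a free pair far from two adjacent vertices -/
lemma exists_far {t : LT ℕ} {G P : SimpleGraph ℕ} (h : GoodW t G P) {p q : ℕ} (hpq : G.Adj p q)
    (X : Finset (ℕ × ℕ)) (hX : 26 ≤ X.card)
    (hX' : ∀ e ∈ X, G.Adj e.1 e.2 ∧ ¬ TA t e.1 e.2 ∧ ¬ P.Adj e.1 e.2) :
    ∃ e ∈ X, ¬ G.Adj p e.1 ∧ ¬ G.Adj q e.1 ∧ ¬ G.Adj p e.2 ∧ ¬ G.Adj q e.2 := by
  set A := (0 :: t.labels).toFinset with hA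
  set B := A.filter (fun x => G.Adj p x) ∪ A.filter (fun x => G.Adj q x) with hB
  have hpA : p ∈ A := h.core.supp _ _ hpq
  have hqA : q ∈ A := h.core.supp _ _ hpq.symm
  have c1 : B.card ≤ 6 := by
    refine (Finset.card_union_le _ _).trans ?_
    have e1 := card_nbr_le h.core hpA (A.filter (fun x => G.Adj p x))
      (fun y hy => (Finset.mem_filter.1 hy).2)
    have e2 := card_nbr_le h.core hqA (A.filter (fun x => G.Adj q x))
      (fun y hy => (Finset.mem_filter.1 hy).2)
    omega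
  have hBA : ∀ x ∈ B, x ∈ A := by
    intro x hx
    rw [hB, Finset.mem_union, Finset.mem_filter, Finset.mem_filter] at hx
    rcases hx with hx | hx <;> exact hx.1
  have c2 : ∀ x ∈ B, (X.filter (fun e => e.1 = x)).card ≤ 2 := by
    intro x hx
    obtain ⟨y₀, hy₀⟩ := exists_tree_nbr t (hBA x hx)
    have e1 : (X.filter (fun e => e.1 = x)).card =
        ((X.filter (fun e => e.1 = x)).image Prod.snd).card := by
      rw [Finset.card_image_of_injOn]
      rintro ⟨a, b⟩ hab ⟨a', b'⟩ hab' hbb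
      have g1 := (Finset.mem_filter.1 (Finset.mem_coe.1 hab)).2
      have g2 := (Finset.mem_filter.1 (Finset.mem_coe.1 hab')).2
      simp only at g1 g2 hbb
      rw [g1, g2, hbb]
    rw [e1]
    refine card_nbr_le_two h.core (hBA x hx) (hy₀.adj h) _ ?_
    intro y hy
    obtain ⟨⟨a, b⟩, hab, rfl⟩ := Finset.mem_image.1 hy
    obtain ⟨g1, g2⟩ := Finset.mem_filter.1 hab
    simp only at g2 ⊢
    subst g2
    have g3 := hX' _ g1
    exact ⟨g3.1, fun hb => g3.2.1 (by simp only at hb ⊢; rw [hb]; exact hy₀)⟩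
  have c3 : ∀ x ∈ B, (X.filter (fun e => e.2 = x)).card ≤ 2 := by
    intro x hx
    obtain ⟨y₀, hy₀⟩ := exists_tree_nbr t (hBA x hx)
    have e1 : (X.filter (fun e => e.2 = x)).card =
        ((X.filter (fun e => e.2 = x)).image Prod.fst).card := by
      rw [Finset.card_image_of_injOn]
      rintro ⟨a, b⟩ hab ⟨a', b'⟩ hab' hbb
      have g1 := (Finset.mem_filter.1 (Finset.mem_coe.1 hab)).2
      have g2 := (Finset.mem_filter.1 (Finset.mem_coe.1 hab')).2
      simp only at g1 g2 hbb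
      rw [g1, g2, hbb]
    rw [e1]
    refine card_nbr_le_two h.core (hBA x hx) (hy₀.adj h) _ ?_
    intro y hy
    obtain ⟨⟨a, b⟩, hab, rfl⟩ := Finset.mem_image.1 hy
    obtain ⟨g1, g2⟩ := Finset.mem_filter.1 hab
    simp only at g2 ⊢
    subst g2
    have g3 := hX' _ g1
    exact ⟨g3.1.symm, fun hb => g3.2.1 (by simp only at hb ⊢; rw [hb]; exact Or.symm hy₀)⟩
  have c4 : ((B.biUnion fun x => X.filter (fun e => e.1 = x)) ∪
      (B.biUnion fun x => X.filter (fun e => e.2 = x))).card ≤ 24 := by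
    refine (Finset.card_union_le _ _).trans ?_
    have e1 := Finset.card_biUnion_le_card_mul B (fun x => X.filter (fun e => e.1 = x)) 2 c2
    have e2 := Finset.card_biUnion_le_card_mul B (fun x => X.filter (fun e => e.2 = x)) 2 c3
    omega
  obtain ⟨e, he, he'⟩ := Finset.exists_mem_notMem_of_card_lt_card (lt_of_le_of_lt c4
    (lt_of_lt_of_le (by norm_num : 24 < 26) hX))
  rw [Finset.mem_union, Finset.mem_biUnion, Finset.mem_biUnion] at he'
  push Not at he'
  have hA1 : e.1 ∈ A := h.core.supp _ _ (hX' e he).1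
  have hA2 : e.2 ∈ A := h.core.supp _ _ (hX' e he).1.symm
  have hB1 : e.1 ∉ B := fun hb => he'.1 _ hb (Finset.mem_filter.2 ⟨he, rfl⟩)
  have hB2 : e.2 ∉ B := fun hb => he'.2 _ hb (Finset.mem_filter.2 ⟨he, rfl⟩)
  rw [hB, Finset.mem_union, Finset.mem_filter, Finset.mem_filter] at hB1 hB2
  refine ⟨e, he, fun g => hB1 (Or.inl ⟨hA1, g⟩), fun g => hB1 (Or.inr ⟨hA1, g⟩),
    fun g => hB2 (Or.inl ⟨hA2, g⟩), fun g => hB2 (Or.inr ⟨hA2, g⟩)⟩

/-! BLOCK B1 (grow step) -/
theorem GoodW.grow {fs : List Frame} {t : LT ℕ} {G P : SimpleGraph ℕ}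
    (h : GoodW (fill fs t) G P) (hp : prt fs = false) :
    ∃ r w G', GoodW (fill fs (.node r false false t (.leaf w))) G' P := by
  classical
  obtain ⟨X, hX, hX'⟩ := h.free
  set p := up fs with hpdef
  set q := t.lab with hqdef
  -- membership
  have mem_lab : ∀ x, x ∈ (fill fs t).labels ↔ (x ∈ clabels fs ∨ x ∈ t.labels) := by
    intro x
    rw [(labels_fill fs t).mem_iff, List.mem_append]
  have nd0 := h.nd
  rw [List.nodup_cons] at nd0
  obtain ⟨n0, nd1⟩ := nd0
  rw [(labels_fill fs t).nodup_iff, List.nodup_append] at nd1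
  obtain ⟨nd2, nd3, nd4⟩ := nd1
  have n0c : 0 ∉ clabels fs := fun g => n0 ((mem_lab 0).2 (Or.inl g))
  have n0t : 0 ∉ t.labels := fun g => n0 ((mem_lab 0).2 (Or.inr g))
  have hqt : q ∈ t.labels := LT.lab_mem t
  have hqc : q ∉ clabels fs := fun g => nd4 q g q hqt rfl
  have hq0 : q ≠ 0 := fun g => n0t (g ▸ hqt)
  have hqtl : q ∉ t.tlabels := by
    rw [LT.labels_eq, List.nodup_cons] at nd3
    exact nd3.1
  have hpm : p ∈ 0 :: clabels fs := up_mem fs
  have hpt : p ∉ t.labels := by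
    intro g
    rw [List.mem_cons] at hpm
    rcases hpm with e | e
    · exact n0t (e ▸ g)
    · exact nd4 p e p g rfl
  have hpq_tree : (p, q) ∈ (fill fs t).tedges 0 := by
    rw [mem_tedges_fill, LT.tedges_eq]; simp [hpdef, hqdef]
  have hpq : G.Adj p q := h.tg _ hpq_tree
  have hPpq : ¬ P.Adj p q := by
    intro g
    have g1 := h.pt _ hpq_tree g
    rw [mem_pedges_fill] at g1
    rcases g1 with g1 | g1 | g1
    · exact hqc (mem_cedges (mem_cped g1)).2
    · rw [hp] at g1; exact absurd g1.1 (by simp)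
    · exact hqtl (LT.mem_inner (LT.mem_pedges g1)).2
  obtain ⟨⟨c, d⟩, hcdX, f1, f2, f3, f4⟩ := exists_far h hpq X hX hX'
  simp only at f1 f2 f3 f4
  obtain ⟨hcd, hcdT, hcdP⟩ := hX' _ hcdX
  simp only at hcd hcdT hcdP
  set A := (0 :: (fill fs t).labels).toFinset with hA
  have memA : ∀ x, x ∈ A ↔ (x = 0 ∨ x ∈ clabels fs ∨ x ∈ t.labels) := by
    intro x
    rw [hA, List.mem_toFinset, List.mem_cons, mem_lab]
  have hs := h.core.supp
  -- the new labels
  obtain ⟨r, hrA⟩ := Infinite.exists_notMem_finset A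
  obtain ⟨w, hwA'⟩ := Infinite.exists_notMem_finset (insert r A)
  rw [Finset.mem_insert] at hwA'
  push Not at hwA'
  obtain ⟨hwr, hwA⟩ := hwA'
  have F : Fresh A G p q c d r w :=
    { pq := hpq
      cd := hcd
      pc := fun e => f2 (e ▸ hpq.symm)
      pd := fun e => f4 (e ▸ hpq.symm)
      qc := fun e => f1 (e ▸ hpq)
      qd := fun e => f3 (e ▸ hpq)
      rA := hrA
      wA := hwA
      rw := hwr.symm }
  have Fa : Far G p q c d := ⟨f1, f3, f2, f4⟩
  have hpA : p ∈ A := hs _ _ hpq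
  have hqA : q ∈ A := hs _ _ hpq.symm
  have hcA : c ∈ A := hs _ _ hcd
  have hdA : d ∈ A := hs _ _ hcd.symm
  have ne_r : ∀ x ∈ A, x ≠ r := fun x hx e => hrA (e ▸ hx)
  have ne_w : ∀ x ∈ A, x ≠ w := fun x hx e => hwA (e ▸ hx)
  -- old tree edges
  have oldc : ∀ e ∈ cedges fs, e ∈ (fill fs t).tedges 0 ∧ ¬ Eq2 e.1 e.2 p q := by
    intro e he
    refine ⟨(mem_tedges_fill fs t e).2 (Or.inl he), ?_⟩
    have g := mem_cedges he
    rintro (⟨g1, g2⟩ | ⟨g1, g2⟩)
    · exact hqc (g2 ▸ g.2)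
    · rw [g1, List.mem_cons] at g
      rcases g.1 with g | g
      · exact hq0 g
      · exact hqc g
  have oldi : ∀ e ∈ t.inner, e ∈ (fill fs t).tedges 0 ∧ ¬ Eq2 e.1 e.2 p q := by
    intro e he
    refine ⟨(mem_tedges_fill fs t e).2 (Or.inr ?_), ?_⟩
    · rw [LT.tedges_eq]; exact List.mem_cons_of_mem _ he
    · have g := LT.mem_inner he
      rintro (⟨g1, g2⟩ | ⟨g1, g2⟩)
      · exact hqtl (g2 ▸ g.2)
      · exact hpt (g2 ▸ LT.tlabels_sub t g.2)
  -- classification of the new tree edges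
  have newe : ∀ e ∈ (fill fs (.node r false false t (.leaf w))).tedges 0,
      (e = (p, r) ∨ e = (r, q) ∨ e = (r, w)) ∨
        (e ∈ (fill fs t).tedges 0 ∧ ¬ Eq2 e.1 e.2 p q ∧ (e ∈ cedges fs ∨ e ∈ t.inner)) := by
    intro e he
    rw [mem_tedges_fill, tedges_node, LT.tedges_eq r t] at he
    simp only [LT.tedges, List.mem_append, List.mem_cons, List.not_mem_nil, or_false] at he
    rcases he with he | he | (he | he) | he
    · exact Or.inr ⟨(oldc e he).1, (oldc e he).2, Or.inl he⟩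
    · exact Or.inl (Or.inl he)
    · exact Or.inl (Or.inr (Or.inl he))
    · exact Or.inr ⟨(oldi e he).1, (oldi e he).2, Or.inr he⟩
    · exact Or.inl (Or.inr (Or.inr he))
  have newlab : (fill fs (.node r false false t (.leaf w))).labels.Perm
      (r :: w :: (fill fs t).labels) := by
    refine (labels_fill _ _).trans ?_
    rw [labels_node]
    have e1 : (clabels fs ++ (r :: (t.labels ++ [w]))).Perm (r :: (clabels fs ++ (t.labels ++ [w])))
      := List.perm_middle
    refine e1.trans (List.Perm.cons r ?_)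
    rw [← List.append_assoc]
    refine (List.perm_append_singleton w _).trans (List.Perm.cons w ?_)
    exact (labels_fill fs t).symm
  have newA : (0 :: (fill fs (.node r false false t (.leaf w))).labels).toFinset =
      insert r (insert w A) := by
    ext x
    simp only [List.mem_toFinset, List.mem_cons, newlab.mem_iff, Finset.mem_insert, hA]
    tauto
  have notTAcd : ∀ e ∈ (fill fs t).tedges 0, ¬ Eq2 e.1 e.2 c d := by
    rintro ⟨a, b⟩ he (⟨g1, g2⟩ | ⟨g1, g2⟩)
    · simp only at g1 g2; subst g1 g2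
      exact hcdT (Or.inl he)
    · simp only at g1 g2; subst g1 g2
      exact hcdT (Or.inr he)
  have hPA : ∀ x y, P.Adj x y → x ∈ A ∧ y ∈ A := fun x y g =>
    ⟨hs _ _ (h.pg _ _ g), hs _ _ (h.pg _ _ g).symm⟩
  refine ⟨r, w, ins G p q c d r w, ?_, ?_, NT.ins hs F h.nt, N4.ins hs F Fa h.nt h.n4, ?_, h.unc,
    ?_, ?_, ?_⟩
  · -- nodup
    have : (0 :: r :: w :: (fill fs t).labels).Nodup := by
      have g0 : ∀ x, x ∈ (0 :: (fill fs t).labels) → x ∈ A := fun x hx => by
        rw [hA, List.mem_toFinset]; exact hx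
      have r0 : r ≠ 0 := (ne_r 0 ((memA 0).2 (Or.inl rfl))).symm
      have w0 : w ≠ 0 := (ne_w 0 ((memA 0).2 (Or.inl rfl))).symm
      have rl : r ∉ (fill fs t).labels := fun g => hrA (g0 r (List.mem_cons_of_mem _ g))
      have wl : w ∉ (fill fs t).labels := fun g => hwA (g0 w (List.mem_cons_of_mem _ g))
      have nd := h.nd
      rw [List.nodup_cons] at nd
      simp only [List.nodup_cons, List.mem_cons, not_or]
      exact ⟨⟨r0.symm, w0.symm, nd.1⟩, ⟨hwr.symm, rl⟩, wl, nd.2⟩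
    exact ((newlab.cons 0).nodup_iff).2 this
  · rw [newA]
    exact h.core.ins F
  · -- pg
    intro x y g
    refine adjO' (h.pg _ _ g) ?_ ?_
    · rintro (⟨g1, g2⟩ | ⟨g1, g2⟩)
      · exact hPpq (g1 ▸ g2 ▸ g)
      · exact hPpq (g1 ▸ g2 ▸ g.symm)
    · rintro (⟨g1, g2⟩ | ⟨g1, g2⟩)
      · exact hcdP (g1 ▸ g2 ▸ g)
      · exact hcdP (g1 ▸ g2 ▸ g.symm)
  · -- tg
    intro e he
    rcases newe e he with (rfl | rfl | rfl) | ⟨g1, g2, _⟩
    · exact Or.inr ⟨ne_r p hpA, Or.inl (Or.inl ⟨rfl, rfl⟩)⟩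
    · exact Or.inr ⟨(ne_r q hqA).symm, Or.inr (Or.inl (Or.inl ⟨rfl, rfl⟩))⟩
    · exact Or.inr ⟨hwr.symm, Or.inr (Or.inr (Or.inl (Or.inl ⟨rfl, rfl⟩)))⟩
    · exact adjO' (h.tg _ g1) g2 (notTAcd e g1)
  · -- pt
    intro e he g
    rcases newe e he with (rfl | rfl | rfl) | ⟨g1, _, _⟩
    · exact absurd (hPA _ _ g).2 hrA
    · exact absurd (hPA _ _ g).1 hrA
    · exact absurd (hPA _ _ g).1 hrA
    · have g3 := h.pt e g1 g
      rw [mem_pedges_fill] at g3 ⊢
      rw [pedges_node]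
      simp only [List.mem_append]
      rcases g3 with g3 | g3 | g3
      · exact Or.inl g3
      · rw [hp] at g3; exact absurd g3.1 (by simp)
      · exact Or.inr (Or.inr (Or.inr (Or.inr (Or.inl g3))))
  · -- free
    have hcw : c ≠ w := ne_w c hcA
    refine ⟨insert (c, w) (insert (w, c) ((X.erase (c, d)).erase (d, c))), ?_, ?_⟩
    · have XA : ∀ e ∈ X, e.1 ∈ A ∧ e.2 ∈ A := fun e he =>
        ⟨hs _ _ (hX' e he).1, hs _ _ (hX' e he).1.symm⟩
      have k1 : (w, c) ∉ (X.erase (c, d)).erase (d, c) := fun g =>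
        hwA (XA _ (Finset.mem_of_mem_erase (Finset.mem_of_mem_erase g))).1
      have k2 : (c, w) ∉ insert (w, c) ((X.erase (c, d)).erase (d, c)) := by
        intro g
        rcases Finset.mem_insert.1 g with g | g
        · exact hcw (Prod.mk.inj g).1
        · exact hwA (XA _ (Finset.mem_of_mem_erase (Finset.mem_of_mem_erase g))).2
      rw [Finset.card_insert_of_notMem k2, Finset.card_insert_of_notMem k1]
      have k3 : X.card - 1 ≤ (X.erase (c, d)).card := Finset.pred_card_le_card_erase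
      have k4 : (X.erase (c, d)).card - 1 ≤ ((X.erase (c, d)).erase (d, c)).card :=
        Finset.pred_card_le_card_erase
      omega
    · have w_notTA : ∀ x ∈ A, ¬ TA (fill fs (.node r false false t (.leaf w))) x w ∧
          ¬ TA (fill fs (.node r false false t (.leaf w))) w x := by
        intro x hx
        have a1 : (x, w) ∉ (fill fs (.node r false false t (.leaf w))).tedges 0 := by
          intro g
          rcases newe _ g with (g | g | g) | ⟨g, _, _⟩
          · exact hwr (Prod.mk.inj g).2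
          · exact ne_w q hqA (Prod.mk.inj g).2.symm
          · exact ne_r x hx (Prod.mk.inj g).1
          · exact hwA (hs _ _ (h.tg _ g).symm)
        have a2 : (w, x) ∉ (fill fs (.node r false false t (.leaf w))).tedges 0 := by
          intro g
          rcases newe _ g with (g | g | g) | ⟨g, _, _⟩
          · exact ne_w p hpA (Prod.mk.inj g).1.symm
          · exact hwr (Prod.mk.inj g).1
          · exact hwr (Prod.mk.inj g).1
          · exact hwA (hs _ _ (h.tg _ g))
        constructor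
        · rintro (g | g)
          · exact a1 g
          · exact a2 g
        · rintro (g | g)
          · exact a2 g
          · exact a1 g
      intro e he
      rcases Finset.mem_insert.1 he with rfl | he
      · refine ⟨Or.inr ⟨hcw, Or.inr (Or.inr (Or.inr (Or.inl (Or.inl ⟨rfl, rfl⟩))))⟩,
          (w_notTA c hcA).1, fun g => hwA (hPA _ _ g).2⟩
      rcases Finset.mem_insert.1 he with rfl | he
      · refine ⟨Or.inr ⟨hcw.symm, Or.inr (Or.inr (Or.inr (Or.inl (Or.inr ⟨rfl, rfl⟩))))⟩,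
          (w_notTA c hcA).2, fun g => hwA (hPA _ _ g).1⟩
      obtain ⟨m1, m2⟩ := Finset.mem_erase.1 he
      obtain ⟨m3, m4⟩ := Finset.mem_erase.1 m2
      obtain ⟨b1, b2, b3⟩ := hX' e m4
      refine ⟨adjO' b1 ?_ ?_, ?_, b3⟩
      · rintro (⟨g1, g2⟩ | ⟨g1, g2⟩)
        · exact b2 (Or.inl (by rw [g1, g2]; exact hpq_tree))
        · exact b2 (Or.inr (by rw [g1, g2]; exact hpq_tree))
      · rintro (⟨g1, g2⟩ | ⟨g1, g2⟩)
        · exact m3 (Prod.ext g1 g2)
        · exact m1 (Prod.ext g1 g2)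
      · have eA1 : e.1 ∈ A := hs _ _ b1
        have eA2 : e.2 ∈ A := hs _ _ b1.symm
        have key : ∀ a b : ℕ, a ∈ A → b ∈ A →
            (a, b) ∈ (fill fs (.node r false false t (.leaf w))).tedges 0 →
            (a, b) ∈ (fill fs t).tedges 0 := by
          intro a b ha hb g
          rcases newe _ g with (g | g | g) | ⟨g, _, _⟩
          · exact absurd (Prod.mk.inj g).2 (ne_r b hb)
          · exact absurd (Prod.mk.inj g).1 (ne_r a ha)
          · exact absurd (Prod.mk.inj g).1 (ne_r a ha)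
          · exact g
        rintro (g | g)
        · exact b2 (Or.inl (key _ _ eA1 eA2 g))
        · exact b2 (Or.inr (key _ _ eA2 eA1 g))

end Pool.Agent.Helper80.Hist
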